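import Pool.Agent.Lib.MP_fed790_nt.QP.F

/-!
# `log Λ(k,2)` is at most `(2k) ^ O(Ω(k))`

For every `k ≥ 2`, `Λ(k,2) < 2 ^ ((2k) ^ (1320 (Ω(k) + 1)))`, where `Ω(k)` is the number of prime
factors of `k` (with multiplicity). For prime `k` this is `2 ^ ((2k) ^ 2640)`.
-/

namespace Pool.Agent.Results.MP_fed790_nt.PolynomialLogUpper

open Pool.Agent.Lib.MP_fed790_nt

theorem result :
    (∀ k : ℕ, 2 ≤ k →
      Lam k 2 < ((2 ^ ((2 * k) ^ (1320 * (ArithmeticFunction.cardFactors k + 1))) : ℕ) : ℕ∞) ∧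
      ∀ p : ℕ, p.Prime → 2 ^ ((2 * k) ^ (1320 * (ArithmeticFunction.cardFactors k + 1))) < p →
        r k 2 p < ((2 ^ ((2 * k) ^ (1320 * (ArithmeticFunction.cardFactors k + 1))) : ℕ) : ℕ∞)) ∧
    (∀ k : ℕ, k.Prime → Lam k 2 < ((2 ^ ((2 * k) ^ 2640) : ℕ) : ℕ∞)) := by
  have h1 : ∀ k : ℕ, 2 ≤ k →
      Lam k 2 < ((2 ^ ((2 * k) ^ (1320 * (ArithmeticFunction.cardFactors k + 1))) : ℕ) : ℕ∞) :=
    fun k hk => QP.Lam_lt hk
  refine ⟨fun k hk => ⟨h1 k hk, fun p hp hpk => QP.r_lt hk hp hpk⟩, fun k hk => ?_⟩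
  have h2 := h1 k hk.two_le
  rwa [ArithmeticFunction.cardFactors_apply_prime hk] at h2

end Pool.Agent.Results.MP_fed790_nt.PolynomialLogUpper
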