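import Pool.Agent.Lib.MP_fed790_nt.BK.B14

/-!
# Superexponential lower bounds for the consecutive power residue constants

For every `c < 1/2`, `Λ(k,2) ≥ exp (c k log log k)` for all large odd `k` and
`Λ(k,2) ≥ exp (c (k/2) log log k)` for all large even `k`; for every `c < 1`,
`Λ(k,3) ≥ exp (c k log log k)` for all large odd `k`.

(`Λ(k,3)` for even `k` and `Λ(k,m)`, `m ≥ 4`, are known to be infinite.)
-/

namespace Pool.Agent.Results.MP_fed790_nt.SuperexponentialLower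

open Pool.Agent.Lib.MP_fed790_nt

theorem result :
    (∀ c : ℝ, c < 1 / 2 → ∃ k₀ : ℕ, ∀ k ≥ k₀,
      (Odd k → ((⌊Real.exp (c * k * Real.log (Real.log k))⌋₊ : ℕ) : ℕ∞) ≤ Lam k 2) ∧
      (Even k → ((⌊Real.exp (c * (k / 2) * Real.log (Real.log k))⌋₊ : ℕ) : ℕ∞) ≤ Lam k 2)) ∧
    (∀ c : ℝ, c < 1 → ∃ k₀ : ℕ, ∀ k ≥ k₀,
      Odd k → ((⌊Real.exp (c * k * Real.log (Real.log k))⌋₊ : ℕ) : ℕ∞) ≤ Lam k 3) := by
  refine ⟨fun c hc => ?_, fun c hc => BK.Lam_three_lower c hc⟩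
  obtain ⟨k₀, hk₀⟩ := BK.Lam_two_lower c hc
  refine ⟨k₀, fun k hk => ⟨fun hodd => ?_, fun heven => ?_⟩⟩
  · have h := hk₀ k hk 1 (Or.inl ⟨rfl, hodd⟩)
    rwa [Nat.div_one] at h
  · have h := hk₀ k hk 2 (Or.inr ⟨rfl, heven⟩)
    rwa [Nat.cast_div_charZero heven.two_dvd, Nat.cast_ofNat] at h

end Pool.Agent.Results.MP_fed790_nt.SuperexponentialLower
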